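import Mathlib
import Pool.Agent.TH419.FS.Pow

/-!
# Every word in every long window of the digits of `p ^ n`

Let `p, q ≥ 2` be coprime. Among any `M` consecutive exponents `n` (the position of the exponents is
arbitrary), all but `δ M` are such that every word of `k` digits in base `q` occurs in every window of
`ε n` consecutive places of the base `q` expansion of `p ^ n`.
-/

set_option autoImplicit false

namespace Pool.Agent.Results.MP_b08cb4_nt.EveryLongWindow

/-- Every word of `k` digits in base `q` (the word with value `W` consists of the `k` digits of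
`W < q ^ k`, with leading zeros) occurs in the base `q` expansion of `m` at places between `A` and `B`:
there is a `ν` such that the digits of `m` at the places `ν, ν + 1, …, ν + k - 1` (counted from the
right, the last digit has the place `0`) are the digits of `W`, and `A ≤ ν`, `ν + k ≤ B`. -/
def AllWordsBetween (q k m : ℕ) (A B : ℝ) : Prop :=
  ∀ W : ℕ, W < q ^ k → ∃ ν : ℕ, A ≤ ν ∧ (ν : ℝ) + k ≤ B ∧ m / q ^ ν % q ^ k = W

open Classical in
/-- Let `p, q ≥ 2` be coprime (for example different primes), `k` a natural number and `ε, δ > 0`.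
There is an `M₀` such that for all `s` and all `M ≥ M₀`: for all but at most `δ M` of the `n` with
`s ≤ n < s + M`, every word of `k` digits in base `q` occurs in every window of length `ε n` of the
base `q` expansion of `p ^ n`: for every `N` with `N + ε n ≤ n log_q p`, every word of `k` digits occurs
at places between `N` and `N + ε n`. -/
theorem result (p q : ℕ) (hp : 2 ≤ p) (hq : 2 ≤ q) (hpq : p.Coprime q) (k : ℕ) (ε δ : ℝ)
    (hε : 0 < ε) (hδ : 0 < δ) :
    ∃ M₀ : ℕ, ∀ s M : ℕ, M₀ ≤ M →
      (((Finset.Ico s (s + M)).filter (fun n : ℕ => ¬ ∀ N : ℕ,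
        (N : ℝ) + ε * n ≤ n * (Real.log p / Real.log q) →
          AllWordsBetween q k (p ^ n) N (N + ε * n))).card : ℝ) ≤ δ * M := by
  have hind : Pool.Agent.H705R2.MulIndep q p := by
    intro m n hmn
    have h1 : (q ^ m).Coprime (p ^ n) := Nat.Coprime.pow m n hpq.symm
    rw [hmn, Nat.coprime_self] at h1
    have h2 : n = 0 := by
      by_contra hn
      exact absurd h1 (Nat.one_lt_pow hn (by omega)).ne'
    rw [h2, pow_zero] at hmn
    have h3 : m = 0 := by
      by_contra hm
      exact absurd hmn (Nat.one_lt_pow hm (by omega)).ne'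
    exact ⟨h3, h2⟩
  obtain ⟨M₀, hM₀⟩ := Pool.Agent.TH419.FS.pow_unif hq hp hind hpq.symm hδ hε k
  refine ⟨M₀, fun s M hM => le_trans ?_ (hM₀ s M hM)⟩
  have hsub : (Finset.Ico s (s + M)).filter (fun n : ℕ => ¬ ∀ N : ℕ,
        (N : ℝ) + ε * n ≤ n * (Real.log p / Real.log q) →
          AllWordsBetween q k (p ^ n) N (N + ε * n)) ⊆
      ((Finset.range M).filter (fun i : ℕ => ¬ ∀ N : ℕ,
          (N : ℝ) + ε * (s + i) ≤ (s + i) * (Real.log p / Real.log q) →
            Pool.Agent.TH419.FS.AllWords q k (p ^ (s + i)) N (N + ε * (s + i)))).image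
        (fun i => s + i) := by
    intro n hn
    rw [Finset.mem_filter, Finset.mem_Ico] at hn
    rw [Finset.mem_image]
    refine ⟨n - s, Finset.mem_filter.2 ⟨Finset.mem_range.2 (by omega), ?_⟩, by omega⟩
    have e1 : s + (n - s) = n := by omega
    have e2 : (s : ℝ) + ((n - s : ℕ) : ℝ) = n := by
      rw [← Nat.cast_add, e1]
    rw [e2, e1]
    exact hn.2
  exact_mod_cast (Finset.card_le_card hsub).trans Finset.card_image_le

end Pool.Agent.Results.MP_b08cb4_nt.EveryLongWindow
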